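import Pool.Agent.Helper20.BandSum.Model

set_option autoImplicit false

/-!
Project BANDSUM (MP_e64f90_gt), part D: colourings of closed braids by involutory quandles, with
transport along changes of diagram given by terms.
-/

namespace Pool.Agent.Helper20.BandSum

section Kei

variable {Q : Type*} {op : Q → Q → Q}

theorem act_true (i : ℕ) (x : ℕ → Q) (j : ℕ) :
    act op (i, true) x j = if j = i then op (x i) (x (i + 1))
        else if j = i + 1 then x i else x j := rfl

theorem act_false (i : ℕ) (x : ℕ → Q) (j : ℕ) :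
    act op (i, false) x j = if j = i then x (i + 1)
        else if j = i + 1 then op (x (i + 1)) (x i) else x j := rfl

theorem act_of_ne (l : Letter) (x : ℕ → Q) (j : ℕ) (h1 : j ≠ l.1) (h2 : j ≠ l.1 + 1) :
    act op l x j = x j := by
  obtain ⟨i, b⟩ := l
  cases b
  · rw [act_false, if_neg h1, if_neg h2]
  · rw [act_true, if_neg h1, if_neg h2]

/-- at a crossing of two strands with the same colour nothing happens -/
theorem act_eq_self (h : IsKei op) (l : Letter) (x : ℕ → Q) (hx : x l.1 = x (l.1 + 1)) :
    act op l x = x := by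
  obtain ⟨i, b⟩ := l
  simp only at hx
  funext j
  cases b
  · rw [act_false]
    split_ifs with h1 h2
    · rw [h1, hx]
    · rw [h2, hx, h.idem]
    · rfl
  · rw [act_true]
    split_ifs with h1 h2
    · rw [h1, ← hx, h.idem]
    · rw [h2, hx]
    · rfl

/-- at a crossing of two strands with commuting colours the sign does not matter -/
theorem act_change {x : ℕ → Q} {i : ℕ} (h1 : op (x i) (x (i + 1)) = x (i + 1))
    (h2 : op (x (i + 1)) (x i) = x i) (b : Bool) : act op (i, b) x = act op (i, !b) x := by
  have key : act op (i, true) x = act op (i, false) x := by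
    funext j
    rw [act_true, act_false]
    split_ifs
    · exact h1
    · exact h2.symm
    · rfl
  cases b
  · exact key.symm
  · exact key

theorem act_act_not (h : IsKei op) (i : ℕ) (b : Bool) (x : ℕ → Q) :
    act op (i, !b) (act op (i, b) x) = x := by
  funext j
  have hi' : i + 1 ≠ i := by omega
  cases b
  · simp only [Bool.not_false]
    rw [act_true]
    simp only [act_false, if_true, if_neg hi']
    split_ifs with h1 h2
    · rw [h1, h.inv]
    · rw [h2]
    · rfl
  · simp only [Bool.not_true]
    rw [act_false]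
    simp only [act_true, if_true, if_neg hi']
    split_ifs with h1 h2
    · rw [h1]
    · rw [h2, h.inv]
    · rfl

theorem actWord_cons (l : Letter) (w : List Letter) (x : ℕ → Q) :
    actWord op (l :: w) x = actWord op w (act op l x) := rfl

theorem actWord_append (u v : List Letter) (x : ℕ → Q) :
    actWord op (u ++ v) x = actWord op v (actWord op u x) := by
  induction u generalizing x with
  | nil => rfl
  | cons l u ih => exact ih _

theorem act_comm (i j : ℕ) (b c : Bool) (hij : i + 2 ≤ j) (x : ℕ → Q) :
    act op (j, c) (act op (i, b) x) = act op (i, b) (act op (j, c) x) := by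
  have e1 : act op (i, b) x j = x j := act_of_ne _ x j (by simp only; omega) (by simp only; omega)
  have e2 : act op (i, b) x (j + 1) = x (j + 1) :=
    act_of_ne _ x _ (by simp only; omega) (by simp only; omega)
  have e3 : act op (j, c) x i = x i := act_of_ne _ x i (by simp only; omega) (by simp only; omega)
  have e4 : act op (j, c) x (i + 1) = x (i + 1) :=
    act_of_ne _ x _ (by simp only; omega) (by simp only; omega)
  funext k
  by_cases h1 : k = i ∨ k = i + 1
  · have hk1 : k ≠ j := by omega
    have hk2 : k ≠ j + 1 := by omega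
    rw [act_of_ne (j, c) _ k hk1 hk2]
    rcases h1 with h1 | h1 <;> subst h1 <;> cases b
    · rw [act_false, act_false]; simp [e4]
    · rw [act_true, act_true]; simp [e3, e4]
    · rw [act_false, act_false]; simp [e3, e4]
    · rw [act_true, act_true]; simp [e3]
  · have hk1 : k ≠ i := by omega
    have hk2 : k ≠ i + 1 := by omega
    rw [act_of_ne (i, b) _ k hk1 hk2]
    by_cases h2 : k = j ∨ k = j + 1
    · rcases h2 with h2 | h2 <;> subst h2 <;> cases c
      · rw [act_false, act_false]; simp [e2]
      · rw [act_true, act_true]; simp [e1, e2]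
      · rw [act_false, act_false]; simp [e1, e2]
      · rw [act_true, act_true]; simp [e1]
    · have hk3 : k ≠ j := by omega
      have hk4 : k ≠ j + 1 := by omega
      rw [act_of_ne (j, c) _ k hk3 hk4, act_of_ne (j, c) _ k hk3 hk4,
        act_of_ne (i, b) _ k hk1 hk2]

theorem act_braid (h : IsKei op) (i : ℕ) (x : ℕ → Q) :
    act op (i, true) (act op (i + 1, true) (act op (i, true) x)) =
      act op (i + 1, true) (act op (i, true) (act op (i + 1, true) x)) := by
  have a1 : i ≠ i + 1 + 1 := by omega
  have a2 : i + 1 + 1 ≠ i := by omega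
  have a3 : i + 1 ≠ i := by omega
  have a4 : i ≠ i + 1 := by omega
  have a5 : i + 1 + 1 ≠ i + 1 := by omega
  funext k
  by_cases h1 : k = i
  · subst h1
    simp only [act_true, if_neg a1, if_neg a2, if_neg a3, if_neg a4, if_neg a5, if_true]
    exact (h.dist _ _ _).symm
  · by_cases h2 : k = i + 1
    · subst h2
      simp only [act_true, if_neg a1, if_neg a2, if_neg a3, if_neg a4, if_true, if_neg a5]
    · by_cases h3 : k = i + 2
      · subst h3
        simp [act_true, a1]
      · simp [act_true, h1, h2, h3]

/-- The action of a word whose letters lie below `n` does not touch the coordinates `≥ n`. -/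
theorem actWord_ge (n : ℕ) (w : List Letter) (hw : ∀ l ∈ w, l.1 + 1 < n) (x : ℕ → Q)
    (j : ℕ) (hj : n ≤ j) : actWord op w x j = x j := by
  induction w generalizing x with
  | nil => rfl
  | cons l w ih =>
    have h1 := hw l (by simp)
    rw [actWord_cons, ih (fun l' hl' => hw l' (by simp [hl'])),
      act_of_ne l x j (by omega) (by omega)]

/-- The action of a word whose letters lie below `n` only depends on the coordinates `< n`. -/
theorem actWord_congr (n : ℕ) (w : List Letter) (hw : ∀ l ∈ w, l.1 + 1 < n)
    (x y : ℕ → Q) (hxy : ∀ j < n, x j = y j) : ∀ j < n, actWord op w x j = actWord op w y j := by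
  induction w generalizing x y with
  | nil => exact hxy
  | cons l w ih =>
    have h1 := hw l (by simp)
    refine ih (fun l' hl' => hw l' (by simp [hl'])) _ _ ?_
    intro j hj
    obtain ⟨i, b⟩ := l
    simp only at h1
    cases b
    · rw [act_false, act_false, hxy i (by omega), hxy (i + 1) (by omega), hxy j hj]
    · rw [act_true, act_true, hxy i (by omega), hxy (i + 1) (by omega), hxy j hj]

/-- Constant colourings. -/
theorem actWord_const (h : IsKei op) (n : ℕ) (w : List Letter) (hw : ∀ l ∈ w, l.1 + 1 < n)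
    (x : ℕ → Q) (q : Q) (hx : ∀ j < n, x j = q) : ∀ j < n, actWord op w x j = q := by
  induction w generalizing x with
  | nil => exact hx
  | cons l w ih =>
    have h1 := hw l (by simp)
    rw [actWord_cons, act_eq_self h l x (by rw [hx _ (by omega), hx _ h1])]
    exact ih (fun l' hl' => hw l' (by simp [hl'])) x hx

/-- The action of a shifted word. -/
theorem actWord_shift (n : ℕ) (w : List Letter) (x : ℕ → Q) :
    (∀ j, actWord op (w.map (fun l => (l.1 + n, l.2))) x (j + n) =
      actWord op w (fun j => x (j + n)) j) ∧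
    (∀ j < n, actWord op (w.map (fun l => (l.1 + n, l.2))) x j = x j) := by
  induction w generalizing x with
  | nil => exact ⟨fun _ => rfl, fun _ _ => rfl⟩
  | cons l w ih =>
    obtain ⟨i, b⟩ := l
    rw [List.map_cons]
    simp only [actWord_cons]
    have key : (fun j => act op (i + n, b) x (j + n)) = act op (i, b) (fun j => x (j + n)) := by
      funext j
      have e1 : (j + n = i + n) = (j = i) := by simp
      have e2 : (j + n = i + 1 + n) = (j = i + 1) := by
        apply propext
        omega
      have e3 : i + n + 1 = i + 1 + n := by omega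
      cases b
      · simp only [act_false, e1, e2, e3]
      · simp only [act_true, e1, e2, e3]
    refine ⟨fun j => ?_, fun j hj => ?_⟩
    · rw [(ih _).1 j, key]
    · rw [(ih _).2 j hj, act_of_ne _ x j (by simp only; omega) (by simp only; omega)]

/-- homomorphisms commute with the action -/
theorem actWord_hom {P : Type*} {op' : P → P → P} (f : Q → P)
    (hf : ∀ a b, f (op a b) = op' (f a) (f b)) (w : List Letter) (x : ℕ → Q) (j : ℕ) :
    f (actWord op w x j) = actWord op' w (fun j => f (x j)) j := by
  induction w generalizing x with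
  | nil => rfl
  | cons l w ih =>
    rw [actWord_cons, actWord_cons, ih]
    congr 1
    funext k
    obtain ⟨i, b⟩ := l
    cases b
    · rw [act_false, act_false]
      split_ifs
      · rfl
      · rw [hf]
      · rfl
    · rw [act_true, act_true]
      split_ifs
      · rw [hf]
      · rfl
      · rfl

theorem eval_actWord (c : ℕ → Q) (w : List Letter) (τ : ℕ → Tm) (j : ℕ) :
    eval op c (actWord Tm.op w τ j) = actWord op w (fun j => eval op c (τ j)) j :=
  actWord_hom (op := Tm.op) (eval op c) (fun _ _ => rfl) w τ j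

theorem isCol_iff {D : Diagram} {x : ℕ → Q} :
    IsCol op D x ↔ ∀ j < D.strands, actWord op D.word x j = x j := by
  refine ⟨fun h j _ => congrFun h j, fun h => ?_⟩
  funext j
  rcases lt_or_ge j D.strands with hj | hj
  · exact h j hj
  · exact actWord_ge D.strands D.word D.valid x j hj

end Kei

/-- Transport of colourings by keis, given by terms. -/
def Tr (D E : Diagram) : Prop :=
  ∃ τ : ℕ → Tm, ∀ (Q : Type) (op : Q → Q → Q), IsKei op → ∀ c : ℕ → Q, IsCol op D c →
    IsCol op E (fun j => eval op c (τ j)) ∧
      ((∀ j < E.strands, eval op c (τ j) = eval op c (τ 0)) → ∀ j < D.strands, c j = c 0)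

theorem Tr.refl (D : Diagram) : Tr D D := ⟨Tm.var, fun _ _ _ _ hc => ⟨hc, fun h => h⟩⟩

theorem Tr.trans {D E F : Diagram} (h1 : Tr D E) (h2 : Tr E F) : Tr D F := by
  obtain ⟨τ, hτ⟩ := h1
  obtain ⟨σ, hσ⟩ := h2
  refine ⟨fun j => (σ j).subst τ, fun Q op hop c hc => ?_⟩
  obtain ⟨a1, a2⟩ := hτ Q op hop c hc
  obtain ⟨b1, b2⟩ := hσ Q op hop _ a1
  simp only [eval_subst]
  exact ⟨b1, fun h => a2 (b2 h)⟩

theorem Tr.of_act {D E : Diagram} (hs : D.strands = E.strands)
    (h : ∀ (Q : Type) (op : Q → Q → Q), IsKei op → ∀ x : ℕ → Q,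
      actWord op D.word x = actWord op E.word x) : Tr D E := by
  refine ⟨Tm.var, fun Q op hop c hc => ⟨?_, fun h' => hs ▸ h'⟩⟩
  change actWord op E.word c = c
  rw [← h Q op hop]
  exact hc

theorem Tr.of_conj {D E : Diagram} (u v : List Letter) (hs : D.strands = E.strands)
    (hD : D.word = u ++ v) (hE : E.word = v ++ u) : Tr D E := by
  refine ⟨actWord Tm.op u Tm.var, fun Q op hop c hc => ?_⟩
  have key : (fun j => eval op c (actWord Tm.op u Tm.var j)) = actWord op u c := by
    funext j
    rw [eval_actWord]
    rfl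
  have hc' : actWord op v (actWord op u c) = c := by
    rw [← actWord_append, ← hD]; exact hc
  refine ⟨?_, fun h j hj => ?_⟩
  · rw [key]
    change actWord op E.word _ = _
    rw [hE, actWord_append, hc']
  · have hconst : ∀ j < E.strands, actWord op u c j = eval op c (actWord Tm.op u Tm.var 0) := by
      intro j hj
      rw [← h j hj]
      exact (congrFun key j).symm
    have hv : ∀ l ∈ v, l.1 + 1 < E.strands := fun l hl => E.valid l (by rw [hE]; simp [hl])
    have h2 := actWord_const hop E.strands v hv _ _ hconst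
    rw [hc'] at h2
    rw [h2 j (hs ▸ hj), h2 0 E.pos]

theorem Tr.of_stab {D E : Diagram} (b : Bool) (hs : D.strands = E.strands + 1)
    (hD : D.word = E.word ++ [(E.strands - 1, b)]) : Tr D E := by
  refine ⟨Tm.var, fun Q op hop c hc => ?_⟩
  have hpos := E.pos
  obtain ⟨n, hn⟩ : ∃ n, E.strands = n + 1 := ⟨E.strands - 1, by omega⟩
  have hn' : E.strands - 1 = n := by omega
  have hc' : act op (n, b) (actWord op E.word c) = c := by
    have h1 : actWord op D.word c = c := hc
    rw [hD, actWord_append, hn'] at h1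
    exact h1
  have hy : actWord op E.word c (n + 1) = c (n + 1) :=
    actWord_ge E.strands E.word E.valid c (n + 1) (by omega)
  have e1 := congrFun hc' n
  have e2 := congrFun hc' (n + 1)
  have e3 : ∀ j, j ≠ n → j ≠ n + 1 → actWord op E.word c j = c j := by
    intro j h1 h2
    have := congrFun hc' j
    rwa [act_of_ne _ _ j h1 h2] at this
  have key : c n = c (n + 1) ∧ actWord op E.word c n = c (n + 1) := by
    cases b
    · rw [act_false, if_pos rfl, hy] at e1
      rw [act_false, if_neg (by omega), if_pos rfl, hy] at e2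
      have h3 := hop.inv (c (n + 1)) (actWord op E.word c n)
      rw [e2, hop.idem] at h3
      exact ⟨e1.symm, h3.symm⟩
    · rw [act_true, if_pos rfl, hy] at e1
      rw [act_true, if_neg (by omega), if_pos rfl] at e2
      rw [e2, hop.idem] at e1
      exact ⟨e1.symm, e2⟩
  refine ⟨?_, fun h j hj => ?_⟩
  · change actWord op E.word c = c
    funext j
    by_cases h1 : j = n
    · rw [h1, key.2, key.1]
    · by_cases h2 : j = n + 1
      · rw [h2, hy]
      · exact e3 j h1 h2
  · rcases lt_or_ge j E.strands with h1 | h1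
    · exact h j h1
    · have hj' : j = n + 1 := by omega
      rw [hj', ← key.1]
      exact h n (by omega)

theorem Tr.of_stab' {D E : Diagram} (b : Bool) (hs : D.strands = E.strands + 1)
    (hD : D.word = E.word ++ [(E.strands - 1, b)]) : Tr E D := by
  have hpos := E.pos
  obtain ⟨n, hn⟩ : ∃ n, E.strands = n + 1 := ⟨E.strands - 1, by omega⟩
  have hn' : E.strands - 1 = n := by omega
  refine ⟨fun j => if j = n + 1 then Tm.var n else Tm.var j, fun Q op hop c hc => ?_⟩
  obtain ⟨c', hc'⟩ : ∃ c' : ℕ → Q, c' = fun j => if j = n + 1 then c n else c j := ⟨_, rfl⟩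
  have key : (fun j => eval op c (if j = n + 1 then Tm.var n else Tm.var j)) = c' := by
    rw [hc']
    funext j
    split_ifs <;> rfl
  have hlt : ∀ j < E.strands, c' j = c j := by
    intro j hj
    rw [hc']
    simp only
    rw [if_neg (by omega)]
  have h1 : actWord op E.word c' = c' := by
    funext j
    rcases lt_or_ge j E.strands with hj | hj
    · rw [actWord_congr E.strands E.word E.valid c' c hlt j hj, hlt j hj]
      exact congrFun hc j
    · exact actWord_ge E.strands E.word E.valid c' j hj
  refine ⟨?_, fun h j hj => ?_⟩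
  · rw [key]
    change actWord op D.word c' = c'
    rw [hD, actWord_append, h1, hn']
    apply act_eq_self hop
    rw [hlt n (by omega), hc']
    simp
  · have h2 : ∀ j < D.strands, c' j = c' 0 := by
      intro j hj
      rw [← key]
      exact h j hj
    rw [← hlt j hj, ← hlt 0 hpos]
    exact h2 j (by omega)

theorem Tr.of_step {D E : Diagram} (h : Step D E) : Tr D E ∧ Tr E D := by
  rcases h with ⟨u, v, i, b, hs, hD, hE⟩ | ⟨u, v, i, j, b, c, hij, hs, hD, hE⟩ |
    ⟨u, v, i, hs, hD, hE⟩ | ⟨u, v, hs, hD, hE⟩ | ⟨b, hs, hD⟩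
  · have key : ∀ (Q : Type) (op : Q → Q → Q), IsKei op → ∀ x : ℕ → Q,
        actWord op D.word x = actWord op E.word x := by
      intro Q op hop x
      rw [hD, hE, actWord_append, actWord_append, actWord_cons, actWord_cons, act_act_not hop]
    exact ⟨Tr.of_act hs key, Tr.of_act hs.symm fun Q op hop x => (key Q op hop x).symm⟩
  · have key : ∀ (Q : Type) (op : Q → Q → Q), IsKei op → ∀ x : ℕ → Q,
        actWord op D.word x = actWord op E.word x := by
      intro Q op _ x
      rw [hD, hE, actWord_append, actWord_append, actWord_cons, actWord_cons, actWord_cons,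
        actWord_cons, act_comm i j b c hij]
    exact ⟨Tr.of_act hs key, Tr.of_act hs.symm fun Q op hop x => (key Q op hop x).symm⟩
  · have key : ∀ (Q : Type) (op : Q → Q → Q), IsKei op → ∀ x : ℕ → Q,
        actWord op D.word x = actWord op E.word x := by
      intro Q op hop x
      rw [hD, hE, actWord_append, actWord_append]
      simp only [actWord_cons]
      rw [act_braid hop]
    exact ⟨Tr.of_act hs key, Tr.of_act hs.symm fun Q op hop x => (key Q op hop x).symm⟩
  · exact ⟨Tr.of_conj u v hs hD hE, Tr.of_conj v u hs.symm hE hD⟩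
  · exact ⟨Tr.of_stab b hs hD, Tr.of_stab' b hs hD⟩

theorem Tr.of_sameLink {D E : Diagram} (h : SameLink D E) : Tr D E ∧ Tr E D := by
  induction h with
  | rel _ _ h => exact Tr.of_step h
  | refl _ => exact ⟨Tr.refl _, Tr.refl _⟩
  | symm _ _ _ ih => exact ⟨ih.2, ih.1⟩
  | trans _ _ _ _ _ ih1 ih2 => exact ⟨ih1.1.trans ih2.1, ih2.2.trans ih1.2⟩

/-- A closed braid diagram of an unknot, or one which becomes an unknot by changing a crossing with
commuting colours, has only constant colourings. -/
theorem exists_terms_unknot {K : Diagram} (hu : ∃ k ≤ 1, UnknotsIn k K) :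
    ∃ tx ty : Tm, ∀ (Q : Type) (op : Q → Q → Q), IsKei op → ∀ c : ℕ → Q, IsCol op K c →
      op (eval op c tx) (eval op c ty) = eval op c ty →
      op (eval op c ty) (eval op c tx) = eval op c tx → ∀ j < K.strands, c j = c 0 := by
  have h0 : ∀ {K : Diagram}, UnknotsIn 0 K → ∀ (Q : Type) (op : Q → Q → Q), IsKei op →
      ∀ c : ℕ → Q, IsCol op K c → ∀ j < K.strands, c j = c 0 := by
    intro K hK Q op hop c hc
    rcases hK with ⟨hK⟩
    obtain ⟨τ, hτ⟩ := (Tr.of_sameLink hK).1
    refine (hτ Q op hop c hc).2 ?_
    intro j hj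
    have hj' : j < 1 := hj
    rw [Nat.lt_one_iff.1 hj']
  obtain ⟨k, hk, hu⟩ := hu
  rcases hu with ⟨h⟩ | ⟨h, h', h''⟩
  · exact ⟨Tm.var 0, Tm.var 0, fun Q op hop c hc _ _ => h0 (.unknot h) Q op hop c hc⟩
  · rename_i k E E'
    have hk0 : k = 0 := by omega
    subst hk0
    obtain ⟨τ, hτ⟩ := (Tr.of_sameLink h).1
    obtain ⟨u, v, i, b, hs, hE, hE'⟩ := h'
    refine ⟨actWord Tm.op u τ i, actWord Tm.op u τ (i + 1), fun Q op hop c hc h1 h2 => ?_⟩
    rw [eval_actWord, eval_actWord] at h1 h2
    obtain ⟨a1, a2⟩ := hτ Q op hop c hc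
    apply a2
    have a3 : IsCol op E' (fun j => eval op c (τ j)) := by
      have a4 : actWord op E.word (fun j => eval op c (τ j)) = fun j => eval op c (τ j) := a1
      change actWord op E'.word _ = _
      rw [hE, actWord_append, actWord_cons, act_change h1 h2] at a4
      rw [hE', actWord_append, actWord_cons]
      exact a4
    have a5 := h0 h'' Q op hop _ a3
    intro j hj
    exact a5 j (hs ▸ hj)

/-- **Part D1** -/
theorem exists_terms {K K₁ K₂ : Diagram} (hb : IsBandSum K K₁ K₂) (hu : ∃ k ≤ 1, UnknotsIn k K) :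
    ∃ t₁ t₂ tx ty : Tm, ∀ (Q : Type) (op : Q → Q → Q), IsKei op → ∀ c : ℕ → Q,
      IsCol op (split K₁ K₂) c → eval op c t₁ = eval op c t₂ →
      op (eval op c tx) (eval op c ty) = eval op c ty →
      op (eval op c ty) (eval op c tx) = eval op c tx →
      ∀ j < (split K₁ K₂).strands, c j = c 0 := by
  obtain ⟨D, E, hD, ⟨u, v, i, b, hs, hDw, hEw⟩, hE⟩ := hb.band
  obtain ⟨tx, ty, hxy⟩ := exists_terms_unknot hu
  obtain ⟨τ, hτ⟩ := (Tr.of_sameLink hD).2
  obtain ⟨σ, hσ⟩ := (Tr.of_sameLink hE).1
  refine ⟨actWord Tm.op u τ i, actWord Tm.op u τ (i + 1), (tx.subst σ).subst τ,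
    (ty.subst σ).subst τ, fun Q op hop c hc h1 h2 h3 => ?_⟩
  rw [eval_actWord, eval_actWord] at h1
  simp only [eval_subst] at h2 h3
  obtain ⟨a1, a2⟩ := hτ Q op hop c hc
  apply a2
  have a3 : IsCol op E (fun j => eval op c (τ j)) := by
    have a4 : actWord op D.word (fun j => eval op c (τ j)) = fun j => eval op c (τ j) := a1
    change actWord op E.word _ = _
    rw [hDw, actWord_append] at a4
    rw [hEw, actWord_append, actWord_cons, act_eq_self hop _ _ h1]
    exact a4
  obtain ⟨b1, b2⟩ := hσ Q op hop _ a3
  have a5 := b2 (hxy Q op hop _ b1 h2 h3)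
  intro j hj
  exact a5 j (hs ▸ hj)

/-- **Part D2** -/
theorem isCol_split {Q : Type*} {op : Q → Q → Q} {K₁ K₂ : Diagram} {c₁ c₂ : ℕ → Q}
    (h₁ : IsCol op K₁ c₁) (h₂ : IsCol op K₂ c₂) :
    IsCol op (split K₁ K₂) (fun j => if j < K₁.strands then c₁ j else c₂ (j - K₁.strands)) := by
  obtain ⟨c, hc⟩ : ∃ c : ℕ → Q, c = fun j => if j < K₁.strands then c₁ j
    else c₂ (j - K₁.strands) := ⟨_, rfl⟩
  rw [← hc]
  have hlt : ∀ j < K₁.strands, c j = c₁ j := by
    intro j hj
    rw [hc]
    simp only
    rw [if_pos hj]
  have hge : (fun j => c (j + K₁.strands)) = c₂ := by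
    rw [hc]
    funext j
    simp only
    rw [if_neg (by omega), Nat.add_sub_cancel]
  have h1 : actWord op K₁.word c = c := by
    funext j
    rcases lt_or_ge j K₁.strands with hj | hj
    · rw [actWord_congr K₁.strands K₁.word K₁.valid c c₁ hlt j hj, hlt j hj]
      exact congrFun h₁ j
    · exact actWord_ge K₁.strands K₁.word K₁.valid c j hj
  change actWord op (K₁.word ++ K₂.word.map (fun l => (l.1 + K₁.strands, l.2))) c = c
  rw [actWord_append, h1]
  obtain ⟨s1, s2⟩ := actWord_shift (op := op) K₁.strands K₂.word c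
  funext j
  rcases lt_or_ge j K₁.strands with hj | hj
  · exact s2 j hj
  · obtain ⟨k, rfl⟩ := Nat.exists_eq_add_of_le' hj
    rw [s1 k, hge]
    exact (congrFun h₂ k).trans (congrFun hge k).symm

/-- modulo two, colours are only permuted -/
theorem actWord_two (w : List Letter) (x : ℕ → ZMod 2) :
    actWord tak w x = fun j => x ((perm w)⁻¹ j) := by
  induction w generalizing x with
  | nil => rfl
  | cons l w ih =>
    have h2 : ∀ a b : ZMod 2, tak a b = b := by decide
    have h1 : act tak l x = fun j => x (Equiv.swap l.1 (l.1 + 1) j) := by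
      funext j
      obtain ⟨i, b⟩ := l
      simp only [Equiv.swap_apply_def]
      cases b
      · rw [act_false, h2]
        split_ifs <;> rfl
      · rw [act_true, h2]
        split_ifs <;> rfl
    rw [actWord_cons, ih, h1]
    funext j
    change x _ = x _
    congr 1

theorem not_foxColourable_two {D : Diagram} (hD : IsKnot D) : ¬ FoxColourable 2 D := by
  rintro ⟨x, hx, j, hj, hne⟩
  apply hne
  have hx' : actWord tak D.word x = x := hx
  rw [actWord_two] at hx'
  have h1 : ∀ j, x (perm D.word j) = x j := by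
    intro j
    have := congrFun hx' (perm D.word j)
    have h3 : (perm D.word)⁻¹ (perm D.word j) = j := (perm D.word).symm_apply_apply j
    rw [h3] at this
    exact this.symm
  have h2 : ∀ k : ℕ, x ((perm D.word ^ k) 0) = x 0 := by
    intro k
    induction k with
    | zero => rfl
    | succ k ih =>
      rw [pow_succ', Equiv.Perm.mul_apply, h1, ih]
  obtain ⟨k, hk⟩ := hD j hj
  rw [← hk, h2]

/-- group homomorphisms map Fox colourings to Fox colourings -/
theorem isCol_tak_map {G H : Type*} [AddCommGroup G] [AddCommGroup H] (f : G →+ H) {D : Diagram}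
    {x : ℕ → G} (hx : IsCol tak D x) : IsCol tak D (fun j => f (x j)) := by
  change actWord tak D.word _ = _
  funext j
  rw [← actWord_hom (op := tak) (op' := tak) f (fun a b => by simp [tak])]
  exact congrArg f (congrFun hx j)

theorem exists_functional {p : ℕ} [Fact p.Prime] {V : Type*} [AddCommGroup V]
    (hV : ∀ v : V, p • v = 0) (v : V) (hv : v ≠ 0) : ∃ f : V →+ ZMod p, f v ≠ 0 := by
  have hm : Module (ZMod p) V := AddCommGroup.zmodModule hV
  by_contra hcon
  push Not at hcon
  exact hv ((Module.forall_dual_apply_eq_zero_iff (ZMod p) v).1 fun f => hcon f.toAddMonoidHom)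

/-- **Part D3** -/
theorem foxColourable_prime {D : Diagram} (hD : IsKnot D) {n : ℕ} (hn : n ≠ 0)
    (h : FoxColourable n D) : ∃ p : ℕ, p.Prime ∧ p ≠ 2 ∧ FoxColourable p D := by
  obtain ⟨x, hx, j, hj, hne⟩ := h
  obtain ⟨y, hy⟩ : ∃ y : ℕ → ZMod n, y = fun i => if i < D.strands then x i - x 0 else 0 :=
    ⟨_, rfl⟩
  have hylt : ∀ i < D.strands, y i = x i - x 0 := by
    intro i hi
    rw [hy]
    simp only
    rw [if_pos hi]
  have hyge : ∀ i, D.strands ≤ i → y i = 0 := by
    intro i hi
    rw [hy]
    simp only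
    rw [if_neg (by omega)]
  have hycol : IsCol tak D y := by
    rw [isCol_iff]
    intro i hi
    rw [actWord_congr D.strands D.word D.valid y (fun i => x i - x 0) hylt i hi]
    have h1 := actWord_hom (op := tak) (op' := tak) (fun a : ZMod n => a - x 0)
      (fun a b => by simp only [tak]; ring) D.word x i
    rw [← h1, hylt i hi]
    congr 1
    exact congrFun hx i
  -- the exponent
  have hex : ∃ m : ℕ, 0 < m ∧ ∀ i, m • y i = 0 := by
    refine ⟨n, Nat.pos_of_ne_zero hn, fun i => ?_⟩
    rw [nsmul_eq_mul, ZMod.natCast_self, zero_mul]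
  classical
  obtain ⟨m, ⟨hm0, hm⟩, hmin⟩ : ∃ m : ℕ, (0 < m ∧ ∀ i, m • y i = 0) ∧
      ∀ m' < m, ¬ (0 < m' ∧ ∀ i, m' • y i = 0) :=
    ⟨Nat.find hex, Nat.find_spec hex, fun m' hm' => Nat.find_min hex hm'⟩
  have hm1 : m ≠ 1 := by
    rintro rfl
    have := hm j
    rw [one_smul, hylt j hj, sub_eq_zero] at this
    exact hne this
  obtain ⟨p, hp, m', rfl⟩ := Nat.exists_prime_and_dvd hm1
  have hm'0 : 0 < m' := Nat.pos_of_ne_zero (by rintro rfl; simp at hm0)
  have hlt : m' < p * m' := by
    have := hp.two_le
    nlinarith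
  have hnz : ∃ i, m' • y i ≠ 0 := by
    by_contra hcon
    push Not at hcon
    exact hmin m' hlt ⟨hm'0, hcon⟩
  obtain ⟨i, hi⟩ := hnz
  have hiD : i < D.strands := by
    by_contra hcon
    rw [hyge i (by omega), smul_zero] at hi
    exact hi rfl
  have hpf : Fact p.Prime := ⟨hp⟩
  -- the p-torsion
  let V : AddSubgroup (ZMod n) := AddMonoidHom.ker (nsmulAddMonoidHom (α := ZMod n) p)
  have hV : ∀ v : ZMod n, v ∈ V ↔ p • v = 0 := fun v => Iff.rfl
  have hmem : ∀ k, m' • y k ∈ V := by
    intro k
    rw [hV, smul_smul]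
    exact hm k
  obtain ⟨f, hf⟩ := exists_functional (p := p) (V := V) (fun v => Subtype.ext ((hV v).1 v.2))
    ⟨m' • y i, hmem i⟩ (fun h => hi (congrArg Subtype.val h))
  have hzcol : IsCol tak D (fun k => (⟨m' • y k, hmem k⟩ : V)) := by
    change actWord tak D.word _ = _
    funext k
    apply Subtype.ext
    rw [show ((actWord tak D.word (fun k => (⟨m' • y k, hmem k⟩ : V)) k : V) : ZMod n) =
      V.subtype (actWord tak D.word (fun k => (⟨m' • y k, hmem k⟩ : V)) k) from rfl,
      actWord_hom (op := tak) (op' := tak) V.subtype (fun a b => by simp [tak])]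
    exact congrFun (isCol_tak_map (nsmulAddMonoidHom (α := ZMod n) m') hycol) k
  have hcol := isCol_tak_map f hzcol
  have hFox : FoxColourable p D := by
    refine ⟨_, hcol, i, hiD, ?_⟩
    have h0 : (⟨m' • y 0, hmem 0⟩ : V) = 0 := by
      apply Subtype.ext
      change m' • y 0 = 0
      rw [hylt 0 D.pos, sub_self, smul_zero]
    simp only [h0, map_zero]
    exact hf
  refine ⟨p, hp, ?_, hFox⟩
  rintro rfl
  exact not_foxColourable_two hD hFox

end Pool.Agent.Helper20.BandSum
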